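import Pool.Agent.Y328.CC.Gen
import Pool.Agent.Y759.CC.Ray
import Pool.Agent.Y293.CC.Pull
import Pool.Agent.Y151.CC.Vz
import Pool.Agent.Y487.CC.Idx

/-!
# MP_59868e_an: the Cancellation Law for actions of all groups

Groups are written additively and need not be commutative. For a group `G` acting on a set `X`, an
algebra `𝒜` of subsets of `X` which is invariant under `G` and sets `A`, `B` in `𝒜`:
`Equi G 𝒜 A B` means that `A` and `B` are equidecomposable with pieces in `𝒜`, `MulEqui G 𝒜 n A B`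
that `n` copies of `A` and `n` copies of `B` are, `Law G 𝒜` is the Cancellation Law, and
`Fails G X n` says that there are an invariant algebra and `A`, `B` in it with `n[A] = n[B]` and
`[A] ≠ [B]`.
-/

set_option autoImplicit false

open scoped Pointwise
open Set Function MeasureTheory
open Pool.Agent.Y328.CC

universe u v

namespace Pool.Agent.Results.MP_59868e_an.AllGroups

theorem Z2_of_int3 {X : Type u} [AddCommGroup X] (j : ℤ × ℤ × ℤ →+ X) (hj : Injective j) :
    ∃ j' : ℤ × ℤ →+ X, Injective j' := by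
  refine ⟨{ toFun := fun p => j (p.1, p.2, 0), map_zero' := map_zero j, map_add' := ?_ }, ?_⟩
  · intro p q
    have h1 : (((p + q).1, (p + q).2, 0) : ℤ × ℤ × ℤ) = (p.1, p.2, 0) + (q.1, q.2, 0) := by
      simp
    rw [h1, map_add]
  · intro p q h
    have h2 := hj h
    rw [Prod.mk.injEq, Prod.mk.injEq] at h2
    exact Prod.ext h2.1 h2.2.1

theorem fails_Z2 {X : Type u} [AddGroup X] (j : ℤ × ℤ →+ X) (hj : Injective j) (n : ℕ)
    (hn : 2 ≤ n) : Fails X X n :=
  Gen.fails_Z2 Pool.Agent.Y487.CC.t_IDX Pool.Agent.Y759.CC.t_RAY Pool.Agent.Y293.CC.t_PULL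
    Pool.Agent.Y151.CC.t_VZ (0 : X) Gen.triv j hj n hn

/-- **The Cancellation Law for equidecomposability, for actions of arbitrary groups.**
It holds for every action of a group all of whose finitely generated subgroups are finite or
cyclic; for every other group it fails for every action with a point of trivial stabiliser. In
particular it holds for the left translations of a compact group (commutative or not) and all
invariant algebras if and only if the group is locally finite. -/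
theorem result :
    (∀ (G : Type u) (X : Type v) [AddGroup G] [AddAction G X],
      (∀ H : AddSubgroup G, H.FG → Finite H ∨ IsAddCyclic H) →
      ∀ 𝒜 : Set (Set X), IsSetAlgebra 𝒜 → Inv G 𝒜 → Law G 𝒜) ∧
    (∀ (G : Type u) (X : Type v) [AddGroup G] [AddAction G X] (x₀ : X),
      (∀ g : G, g +ᵥ x₀ = x₀ → g = 0) →
      ((∀ 𝒜 : Set (Set X), IsSetAlgebra 𝒜 → Inv G 𝒜 → Law G 𝒜) ↔
        ∀ H : AddSubgroup G, H.FG → Finite H ∨ IsAddCyclic H) ∧
      ∀ H : AddSubgroup G, H.FG → (∀ x : H, x ≠ 0 → ∀ n : ℕ, 0 < n → n • x ≠ 0) →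
        ¬ IsAddCyclic H → ∀ n : ℕ, 2 ≤ n → Fails G X n) ∧
    (∀ (X : Type u) [AddGroup X] [TopologicalSpace X] [IsTopologicalAddGroup X] [CompactSpace X]
      [T2Space X],
      ((∀ 𝒜 : Set (Set X), IsSetAlgebra 𝒜 → Inv X 𝒜 → Law X 𝒜) ↔
        ∀ H : AddSubgroup X, H.FG → Finite H) ∧
      ((∃ x : X, ∀ n : ℕ, 0 < n → n • x ≠ 0) → ∀ n : ℕ, 2 ≤ n → Fails X X n)) ∧
    (∀ (X : Type u) [AddCommGroup X] [TopologicalSpace X] [IsTopologicalAddGroup X]
      [CompactSpace X] [T2Space X],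
      ((∀ 𝒜 : Set (Set X), IsSetAlgebra 𝒜 → Inv X 𝒜 → Law X 𝒜) ↔
        ∃ n : ℕ, 0 < n ∧ ∀ x : X, n • x = 0)) ∧
    ∀ n : ℕ, 2 ≤ n → Fails UnitAddCircle UnitAddCircle n := by
  refine ⟨?_, ?_, ?_, ?_, ?_⟩
  · intro G X _ _ hG 𝒜 h1 h2
    exact Gen.law_of hG h1 h2
  · intro G X _ _ x₀ h0
    refine ⟨Gen.iff_main Pool.Agent.Y487.CC.t_IDX Pool.Agent.Y759.CC.t_RAY
      Pool.Agent.Y293.CC.t_PULL Pool.Agent.Y151.CC.t_VZ x₀ h0, ?_⟩
    intro H hH htf hcyc n hn
    exact Pool.Agent.Y970.CC.t_TRA H G X H.subtype (AddSubgroup.subtype_injective H) x₀ h0 n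
      (Gen.fails_torsionfree Pool.Agent.Y487.CC.t_IDX Pool.Agent.Y759.CC.t_RAY
        Pool.Agent.Y293.CC.t_PULL Pool.Agent.Y151.CC.t_VZ
        ((AddGroup.fg_iff_addSubgroup_fg H).2 hH) htf hcyc n hn)
  · intro X _ _ _ _ _
    have hcomp : (∃ x : X, ∀ n : ℕ, 0 < n → n • x ≠ 0) → ∀ n : ℕ, 2 ≤ n → Fails X X n := by
      rintro ⟨x, hx⟩ n hn
      obtain ⟨j, hj⟩ := Gen.Z2_of_compact x hx
      exact fails_Z2 j hj n hn
    refine ⟨⟨?_, ?_⟩, hcomp⟩
    · intro h H hH
      have h1 := (Gen.iff_main Pool.Agent.Y487.CC.t_IDX Pool.Agent.Y759.CC.t_RAY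
        Pool.Agent.Y293.CC.t_PULL Pool.Agent.Y151.CC.t_VZ (0 : X) Gen.triv).1 h H hH
      rcases h1 with h1 | h1
      · exact h1
      · obtain ⟨⟨t, ht⟩, hgen⟩ := h1.exists_generator
        by_cases hfin : IsOfFinAddOrder t
        · have hf : Finite (AddSubgroup.zmultiples t) := finite_zmultiples.2 hfin
          have hle : H ≤ AddSubgroup.zmultiples t := by
            intro y hy
            obtain ⟨m, hm⟩ := AddSubgroup.mem_zmultiples_iff.1 (hgen ⟨y, hy⟩)
            exact AddSubgroup.mem_zmultiples_iff.2 ⟨m, congrArg Subtype.val hm⟩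
          exact Finite.of_injective _ (AddSubgroup.inclusion_injective hle)
        · exfalso
          rw [isOfFinAddOrder_iff_nsmul_eq_zero] at hfin
          push Not at hfin
          exact Gen.not_fails_of_law h (by norm_num) (hcomp ⟨t, hfin⟩ 2 le_rfl)
    · intro h 𝒜 h1 h2
      exact Gen.law_of (fun H hH => Or.inl (h H hH)) h1 h2
  · intro X _ _ _ _ _
    constructor
    · intro h
      by_contra hX
      obtain ⟨j, hj⟩ := Pool.Agent.H1R3.Canc.exists_injective_int3 hX
      obtain ⟨j', hj'⟩ := Z2_of_int3 j hj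
      exact Gen.not_fails_of_law h (by norm_num) (fails_Z2 j' hj' 2 le_rfl)
    · rintro ⟨n, hn, hx⟩ 𝒜 h1 h2
      refine Gen.law_of (fun H hH => Or.inl ?_) h1 h2
      have : AddGroup.FG H := (AddGroup.fg_iff_addSubgroup_fg H).2 hH
      apply AddCommGroup.finite_of_fg_isAddTorsion
      intro x
      rw [isOfFinAddOrder_iff_nsmul_eq_zero]
      exact ⟨n, hn, by ext; simpa using hx x⟩
  · intro n hn
    have hX : ¬ ∃ n : ℕ, 0 < n ∧ ∀ x : UnitAddCircle, n • x = 0 := by
      rintro ⟨n, hn, hx⟩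
      have h1 := hx (((1 : ℝ) / ((n + 1 : ℕ) : ℝ) : ℝ) : UnitAddCircle)
      have h2 : addOrderOf (((1 : ℝ) / ((n + 1 : ℕ) : ℝ) : ℝ) : UnitAddCircle) = n + 1 :=
        AddCircle.addOrderOf_period_div (p := (1 : ℝ)) (Nat.succ_pos n)
      have h3 := addOrderOf_dvd_of_nsmul_eq_zero h1
      rw [h2] at h3
      have := Nat.le_of_dvd hn h3
      omega
    obtain ⟨j, hj⟩ := Pool.Agent.H1R3.Canc.exists_injective_int3 hX
    obtain ⟨j', hj'⟩ := Z2_of_int3 j hj
    exact fails_Z2 j' hj' n hn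

end Pool.Agent.Results.MP_59868e_an.AllGroups
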